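import Mathlib
import Pool.Agent.Q277.SexticTwo

/-!
# 2-adic behaviour of a normalized binomial convolution

With `t_k = C(6k,3k) C(3k,k)` and `a(n) = (1 / ((2n-1) C(3n,n))) ∑_{k=0}^n t_k t_{n-k}` we prove:
for every `n ≥ 1`, `a(n)` is an integer divisible by `8`, and `a(n)/8` is odd if and only if `n` is
a power of two.
-/

open Finset

namespace Pool.Agent.Results.MP_49e939_nt.TwoAdic

/-- `t_k = C(6k,3k) C(3k,k)`. -/
def t (k : ℕ) : ℕ := (6 * k).choose (3 * k) * (3 * k).choose k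

/-- `a(n) = (1 / ((2n-1) C(3n,n))) ∑_{k=0}^n t_k t_{n-k}`. -/
def a (n : ℕ) : ℚ :=
  1 / ((2 * (n : ℚ) - 1) * ((3 * n).choose n : ℚ)) * ∑ k ∈ range (n + 1), (t k : ℚ) * (t (n - k) : ℚ)

/-- For every `n ≥ 1`, `a(n) = 8 b` with an integer `b`, and `b` is odd exactly when `n` is a power
of two. -/
theorem result (n : ℕ) (hn : 1 ≤ n) :
    ∃ b : ℤ, a n = 8 * b ∧ (Odd b ↔ ∃ j : ℕ, n = 2 ^ j) := by
  obtain ⟨A, h1, ⟨B, hB⟩, h3⟩ := Q277.Sextic.main n hn
  refine ⟨B, ?_, ?_⟩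
  · unfold a
    have hC : ((3 * n).choose n : ℚ) ≠ 0 := by
      have : 0 < (3 * n).choose n := Nat.choose_pos (by omega)
      positivity
    have h2n : (2 * (n : ℚ) - 1) ≠ 0 := by
      have : (((2 * (n : ℤ) - 1 : ℤ)) : ℚ) ≠ 0 := by
        rw [Int.cast_ne_zero]; omega
      push_cast at this
      exact this
    have h1' := congrArg (Nat.cast : ℕ → ℚ) h1
    have hc : ((2 * n - 1 : ℕ) : ℚ) = 2 * n - 1 := by
      rw [Nat.cast_sub (by omega)]; push_cast; ring
    rw [hB] at h1'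
    push_cast at h1'
    rw [hc] at h1'
    have ht : ∀ k, t k = Q277.Sextic.t k := fun k => rfl
    simp only [ht]
    rw [h1']
    push_cast
    field_simp
  · rw [hB, Nat.mul_div_cancel_left _ (by norm_num)] at h3
    rw [← h3, Int.odd_iff]
    omega

end Pool.Agent.Results.MP_49e939_nt.TwoAdic
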